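import Pool.Agent.H21.BT.Targets

/-!
# A pair of primes which is not exceptional (module PRG)
-/

set_option autoImplicit false

open Finset Pool.Agent.H6.N4D Pool.Agent.H21.BS Pool.Agent.H21.BT

namespace Pool.Agent.H90.BT

/-- the weight of the multiples of `q` -/
noncomputable def rD (q n : ℕ) : ℝ := if q ∣ n then (q : ℝ) else 0

lemma rD_nonneg (q n : ℕ) : 0 ≤ rD q n := by
  unfold rD; split_ifs <;> positivity

lemma rD_cast (q n : ℕ) : ((rD q n : ℝ) : ℂ) = if q ∣ n then (q : ℂ) else 0 := by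
  unfold rD; split_ifs <;> simp

lemma DD_eq (q n : ℕ) : DD q n = ((rD q n - 1 : ℝ) : ℂ) := by
  unfold DD
  rw [Complex.ofReal_sub, rD_cast, Complex.ofReal_one]

lemma norm_DD_le (q n : ℕ) : ‖DD q n‖ ≤ rD q n + 1 := by
  rw [DD_eq, Complex.norm_real, Real.norm_eq_abs, abs_le]
  have := rD_nonneg q n
  constructor <;> linarith

lemma ee_mul_conj (x y : ℝ) : ee x * starRingEnd ℂ (ee y) = ee (x - y) := by
  unfold ee
  rw [← Complex.exp_conj, ← Complex.exp_add]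
  congr 1
  simp only [map_mul, Complex.conj_ofReal, Complex.conj_I]
  push_cast
  ring

/-- a weighted mean square of the sum of exponentials -/
lemma quad (V : TC) (q : ℕ) (w : ℕ → ℂ) (A B : ℝ) (hA0 : 0 ≤ A)
    (hA : ∀ r < V.k, ‖V.b r q‖ ≤ A)
    (h : ∀ r < V.k, ∀ r' < V.k, ‖∑ x ∈ range V.N, w (V.a + x) *
      ee ((V.α r q - V.α r' q) * ((V.a + x : ℕ) : ℝ))‖ ≤ B) :
    ‖∑ x ∈ range V.N, w (V.a + x) * ((‖V.F q (V.a + x)‖ ^ 2 : ℝ) : ℂ)‖ ≤
      (V.k * A) ^ 2 * B := by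
  have key : ∑ x ∈ range V.N, w (V.a + x) * ((‖V.F q (V.a + x)‖ ^ 2 : ℝ) : ℂ) =
      ∑ r ∈ range V.k, ∑ r' ∈ range V.k, V.b r q * starRingEnd ℂ (V.b r' q) *
        ∑ x ∈ range V.N, w (V.a + x) *
          ee ((V.α r q - V.α r' q) * ((V.a + x : ℕ) : ℝ)) := by
    have h1 : ∀ n : ℕ, ((‖V.F q n‖ ^ 2 : ℝ) : ℂ) = ∑ r ∈ range V.k, ∑ r' ∈ range V.k,
        V.b r q * starRingEnd ℂ (V.b r' q) * ee ((V.α r q - V.α r' q) * (n : ℝ)) := by
      intro n
      rw [Complex.ofReal_pow, ← Complex.mul_conj']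
      unfold TC.F
      rw [map_sum, Finset.sum_mul_sum]
      refine Finset.sum_congr rfl fun r _ => Finset.sum_congr rfl fun r' _ => ?_
      rw [map_mul, sub_mul, ← ee_mul_conj]
      ring
    simp only [h1, Finset.mul_sum]
    rw [Finset.sum_comm]
    refine Finset.sum_congr rfl fun r _ => ?_
    rw [Finset.sum_comm]
    refine Finset.sum_congr rfl fun r' _ => Finset.sum_congr rfl fun x _ => ?_
    ring
  rw [key]
  refine le_trans (norm_sum_le _ _) ?_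
  have hr : ∀ r ∈ range V.k, ‖∑ r' ∈ range V.k, V.b r q * starRingEnd ℂ (V.b r' q) *
        ∑ x ∈ range V.N, w (V.a + x) *
          ee ((V.α r q - V.α r' q) * ((V.a + x : ℕ) : ℝ))‖ ≤ V.k * (A * A * B) := by
    intro r hr
    refine le_trans (norm_sum_le _ _) ?_
    refine le_trans (Finset.sum_le_card_nsmul _ _ (A * A * B) fun r' hr' => ?_) ?_
    · rw [norm_mul, norm_mul, RCLike.norm_conj]
      have h1 := hA r (mem_range.1 hr)
      have h2 := hA r' (mem_range.1 hr')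
      have h3 := h r (mem_range.1 hr) r' (mem_range.1 hr')
      exact mul_le_mul (mul_le_mul h1 h2 (norm_nonneg _) hA0) h3 (norm_nonneg _)
        (mul_nonneg hA0 hA0)
    · rw [card_range, nsmul_eq_mul]
  refine le_trans (Finset.sum_le_card_nsmul _ _ _ hr) ?_
  rw [card_range, nsmul_eq_mul]
  apply le_of_eq
  ring

/-- the four weighted mean squares of one of the two primes -/
lemma four (hKRN : T_KRN) {W A : ℝ} {P : ℕ} {V : TC} (hV : V.Ok W A P) {q p : ℕ}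
    (hq : q ∈ V.Q) (hp : p ∈ V.Q) (hE : ¬ V.Ex q p) :
    ∑ x ∈ range V.N, (rD q (V.a + x) + 1) * (rD p (V.a + x) + 1) *
      ‖V.F q (V.a + x)‖ ^ 2 ≤ 6 * V.N + 2 * ((V.k * A) ^ 2 * (V.N : ℝ) ^ (3 / 5 : ℝ)) := by
  have hA0 : (0 : ℝ) ≤ A := by linarith [hV.A1]
  have hγ : ∀ r < V.k, ∀ r' < V.k, ∀ b c : ℤ, ¬ ((p : ℤ) ∣ c) →
      (V.N : ℝ) ^ (-(1 / 2) : ℝ) < nd (V.α r q - V.α r' q - (b : ℝ) / q - (c : ℝ) / p) := by
    intro r hr r' hr' b c hc
    by_contra hcon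
    exact hE ⟨r, hr, r', hr', b, c, hc, not_lt.1 hcon⟩
  have hK : ∀ r < V.k, ∀ r' < V.k, _ := fun r hr r' hr' =>
    hKRN V.N V.a q p (V.α r q - V.α r' q) (hV.pr q hq) (hV.pr p hp) (hV.up q hq) (hV.up p hp)
      (hγ r hr r' hr')
  have e1 := quad V q (fun n => (if q ∣ n then (q : ℂ) else 0) * DD p n) A _ hA0
    (fun r hr => hV.bA r hr q hq) (fun r hr r' hr' => (hK r hr r' hr').1)
  have e2 := quad V q (fun n => DD p n) A _ hA0
    (fun r hr => hV.bA r hr q hq) (fun r hr r' hr' => (hK r hr r' hr').2)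
  have n1 := hV.n1 q hq
  have nq := hV.nq q hq
  have c1 : ∑ x ∈ range V.N, (if q ∣ V.a + x then (q : ℂ) else 0) * DD p (V.a + x) *
      ((‖V.F q (V.a + x)‖ ^ 2 : ℝ) : ℂ) =
      ((∑ x ∈ range V.N, rD q (V.a + x) * (rD p (V.a + x) - 1) *
        ‖V.F q (V.a + x)‖ ^ 2 : ℝ) : ℂ) := by
    rw [Complex.ofReal_sum]
    refine Finset.sum_congr rfl fun x _ => ?_
    rw [← rD_cast, DD_eq, ← Complex.ofReal_mul, ← Complex.ofReal_mul]
  have c2 : ∑ x ∈ range V.N, DD p (V.a + x) * ((‖V.F q (V.a + x)‖ ^ 2 : ℝ) : ℂ) =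
      ((∑ x ∈ range V.N, (rD p (V.a + x) - 1) * ‖V.F q (V.a + x)‖ ^ 2 : ℝ) : ℂ) := by
    rw [Complex.ofReal_sum]
    refine Finset.sum_congr rfl fun x _ => ?_
    rw [DD_eq, ← Complex.ofReal_mul]
  beta_reduce at e1 e2
  rw [c1, Complex.norm_real, Real.norm_eq_abs] at e1
  rw [c2, Complex.norm_real, Real.norm_eq_abs] at e2
  have f1 := le_trans (le_abs_self _) e1
  have f2 := le_trans (le_abs_self _) e2
  have nq' : ∑ x ∈ range V.N, rD q (V.a + x) * ‖V.F q (V.a + x)‖ ^ 2 ≤ 2 * V.N := nq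
  have split : ∑ x ∈ range V.N, (rD q (V.a + x) + 1) * (rD p (V.a + x) + 1) *
      ‖V.F q (V.a + x)‖ ^ 2 =
      ∑ x ∈ range V.N, rD q (V.a + x) * (rD p (V.a + x) - 1) * ‖V.F q (V.a + x)‖ ^ 2 +
      ∑ x ∈ range V.N, (rD p (V.a + x) - 1) * ‖V.F q (V.a + x)‖ ^ 2 +
      2 * ∑ x ∈ range V.N, rD q (V.a + x) * ‖V.F q (V.a + x)‖ ^ 2 +
      2 * ∑ x ∈ range V.N, ‖V.F q (V.a + x)‖ ^ 2 := by
    rw [Finset.mul_sum, Finset.mul_sum, ← Finset.sum_add_distrib, ← Finset.sum_add_distrib,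
      ← Finset.sum_add_distrib]
    refine Finset.sum_congr rfl fun x _ => ?_
    ring
  rw [split]
  linarith

theorem pf_PRG (hKRN : T_KRN) : T_PRG := by
  intro W A P V hV q hq p hp _ hE1 hE2
  have g1 := four hKRN hV hq hp hE1
  have g2 := four hKRN hV hp hq hE2
  have hpt : ∀ x ∈ range V.N, ‖V.u q (V.a + x)‖ * ‖V.u p (V.a + x)‖ ≤
      ((rD q (V.a + x) + 1) * (rD p (V.a + x) + 1) * ‖V.F q (V.a + x)‖ ^ 2 +
        (rD p (V.a + x) + 1) * (rD q (V.a + x) + 1) * ‖V.F p (V.a + x)‖ ^ 2) / 2 := by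
    intro x _
    unfold TC.u
    rw [norm_mul, norm_mul]
    have h1 := norm_DD_le q (V.a + x)
    have h2 := norm_DD_le p (V.a + x)
    have h3 := rD_nonneg q (V.a + x)
    have h4 := rD_nonneg p (V.a + x)
    have h5 := norm_nonneg (V.F q (V.a + x))
    have h6 := norm_nonneg (V.F p (V.a + x))
    have h7 : ‖DD q (V.a + x)‖ * ‖V.F q (V.a + x)‖ *
        (‖DD p (V.a + x)‖ * ‖V.F p (V.a + x)‖) ≤
        (rD q (V.a + x) + 1) * ‖V.F q (V.a + x)‖ *
        ((rD p (V.a + x) + 1) * ‖V.F p (V.a + x)‖) := by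
      refine mul_le_mul (mul_le_mul_of_nonneg_right h1 h5)
        (mul_le_mul_of_nonneg_right h2 h6) (by positivity) (by positivity)
    refine le_trans h7 ?_
    have h8 : 0 ≤ (rD q (V.a + x) + 1) * (rD p (V.a + x) + 1) := by positivity
    nlinarith [mul_nonneg h8 (sq_nonneg (‖V.F q (V.a + x)‖ - ‖V.F p (V.a + x)‖))]
  refine le_trans (Finset.sum_le_sum hpt) ?_
  rw [← Finset.sum_div, Finset.sum_add_distrib]
  have hN : (0 : ℝ) ≤ (V.k * A) ^ 2 * (V.N : ℝ) ^ (3 / 5 : ℝ) := by positivity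
  linarith

end Pool.Agent.H90.BT
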